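import Mathlib

set_option autoImplicit false

open Set Topology

namespace Pool.Agent.Work.MP_7aa44c_gt

/-- Existence of a maximal separated set inside `{z | m z = n} \ G`. -/
theorem exists_maximal_sep {X : Type*} (h : ℕ → X → X → Prop)
    (hrefl : ∀ n x, h n x x) (hsymm : ∀ n x y, h n x y → h n y x)
    (m : X → ℕ) (n : ℕ) (G : Set X) :
    ∃ M : Set X, (∀ x ∈ M, m x = n ∧ x ∉ G) ∧
      (∀ x ∈ M, ∀ x' ∈ M, ∀ y, h n x y → h n y x' → x = x') ∧
      (∀ z, m z = n → z ∉ G → ∃ x ∈ M, ∃ y, h n x y ∧ h n y z) := by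
  classical
  let S : Set (Set X) := {M | (∀ x ∈ M, m x = n ∧ x ∉ G) ∧
      (∀ x ∈ M, ∀ x' ∈ M, ∀ y, h n x y → h n y x' → x = x')}
  obtain ⟨M, hM⟩ : ∃ M, Maximal (· ∈ S) M := by
    apply zorn_subset
    intro c hcS hc
    refine ⟨⋃₀ c, ⟨?_, ?_⟩, fun s hs => subset_sUnion_of_mem hs⟩
    · rintro x ⟨s, hs, hx⟩
      exact (hcS hs).1 x hx
    · rintro x ⟨s, hs, hx⟩ x' ⟨s', hs', hx'⟩ y hxy hyx'
      rcases hc.total hs hs' with hss | hss
      · exact (hcS hs').2 x (hss hx) x' hx' y hxy hyx'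
      · exact (hcS hs).2 x hx x' (hss hx') y hxy hyx'
  refine ⟨M, hM.prop.1, hM.prop.2, ?_⟩
  intro z hz hzG
  by_contra hcon
  push Not at hcon
  have hins : insert z M ∈ S := by
    refine ⟨?_, ?_⟩
    · intro x hx
      rcases hx with rfl | hx
      · exact ⟨hz, hzG⟩
      · exact hM.prop.1 x hx
    · intro x hx x' hx' y hxy hyx'
      rcases hx with rfl | hx
      · rcases hx' with rfl | hx'
        · rfl
        · exact absurd (hsymm _ _ _ hxy) (hcon x' hx' y (hsymm _ _ _ hyx'))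
      · rcases hx' with rfl | hx'
        · exact absurd hyx' (hcon x hx y hxy)
        · exact hM.prop.2 x hx x' hx' y hxy hyx'
  have hzM : z ∈ M := (hM.le_of_ge hins (subset_insert z M)) (mem_insert z M)
  exact hcon z hzM z (hrefl n z) (hrefl n z)

/-- A covering lemma: if `O x` absorbs the double `h (m x)`-ball of `x`, then countably many
levels of maximal separated sets give a locally finite set of centres. -/
theorem exists_locallyFinite_kernel {X : Type*} [TopologicalSpace X]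
    (h : ℕ → X → X → Prop)
    (hmono : ∀ {i j x y}, i ≤ j → h j x y → h i x y)
    (hrefl : ∀ n x, h n x x) (hsymm : ∀ n x y, h n x y → h n y x)
    (hnhds : ∀ n x, {y | h n x y} ∈ 𝓝 x)
    (O : X → Set X) (hO : ∀ x, IsOpen (O x))
    (m : X → ℕ) (hm : ∀ x y z, h (m x) x y → h (m x) y z → z ∈ O x) :
    ∃ E : Set X, (∀ y, ∃ V ∈ 𝓝 y, (V ∩ E).Finite) ∧ ∀ y, ∃ x ∈ E, y ∈ O x := by
  classical
  choose M hM1 hM2 hM3 using fun n G => exists_maximal_sep h hrefl hsymm m n G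
  let cov : Set X → Set X := fun T => ⋃ x ∈ T, O x
  let T : ℕ → Set X := fun n => Nat.rec ∅ (fun n T => T ∪ M n (cov T)) n
  have hT : ∀ n, T (n+1) = T n ∪ M n (cov (T n)) := fun n => rfl
  have hTmono : Monotone T := by
    apply monotone_nat_of_le_succ
    intro n
    rw [hT n]
    exact subset_union_left
  have hT0 : T 0 = ∅ := rfl
  have hcovmono : ∀ {A B : Set X}, A ⊆ B → cov A ⊆ cov B := by
    intro A B hAB
    exact biUnion_subset_biUnion_left hAB
  have hcovopen : ∀ A : Set X, IsOpen (cov A) := fun A => isOpen_biUnion fun x _ => hO x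
  have hcover : ∀ y, y ∈ cov (T (m y + 1)) := by
    intro y
    by_cases hy : y ∈ cov (T (m y))
    · exact hcovmono (hTmono (Nat.le_succ _)) hy
    · obtain ⟨x, hx, z, hxz, hzy⟩ := hM3 (m y) (cov (T (m y))) y rfl hy
      have hmx : m x = m y := (hM1 _ _ x hx).1
      refine mem_biUnion (x := x) ?_ (hm x z y (hmx ▸ hxz) (hmx ▸ hzy))
      rw [hT]
      exact Or.inr hx
  have hmemT : ∀ k, ∀ x ∈ T k, ∃ j < k, x ∈ M j (cov (T j)) := by
    intro k
    induction k with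
    | zero => intro x hx; rw [hT0] at hx; exact absurd hx (notMem_empty x)
    | succ k ih =>
      intro x hx
      rw [hT] at hx
      rcases hx with hx | hx
      · obtain ⟨j, hj, hx⟩ := ih x hx
        exact ⟨j, Nat.lt_succ_of_lt hj, hx⟩
      · exact ⟨k, Nat.lt_succ_self k, hx⟩
  refine ⟨⋃ n, T n, ?_, ?_⟩
  · intro y
    refine ⟨cov (T (m y + 1)) ∩ {x | h (m y) y x},
      Filter.inter_mem ((hcovopen _).mem_nhds (hcover y)) (hnhds _ _), ?_⟩
    have hsub : (cov (T (m y + 1)) ∩ {x | h (m y) y x}) ∩ (⋃ n, T n) ⊆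
        ⋃ j ∈ Finset.range (m y + 1), {x | x ∈ M j (cov (T j)) ∧ h j y x} := by
      rintro x ⟨⟨hx1, hx2⟩, hx3⟩
      obtain ⟨n, hn⟩ := mem_iUnion.1 hx3
      obtain ⟨j, hj, hxj⟩ := hmemT n x hn
      have hjle : j < m y + 1 := by
        by_contra hcon
        push Not at hcon
        exact (hM1 _ _ x hxj).2 (hcovmono (hTmono hcon) hx1)
      refine mem_biUnion (x := j) (by simpa using hjle) ⟨hxj, ?_⟩
      exact hmono (Nat.le_of_lt_succ hjle) hx2
    refine Set.Finite.subset ?_ hsub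
    refine Set.Finite.biUnion (Finset.finite_toSet _) ?_
    intro j _
    apply Set.Subsingleton.finite
    rintro a ⟨ha, hya⟩ b ⟨hb, hyb⟩
    exact hM2 _ _ a ha b hb y (hsymm _ _ _ hya) hyb
  · intro y
    obtain ⟨x, hx, hy⟩ := mem_iUnion₂.1 (hcover y)
    exact ⟨x, mem_iUnion.2 ⟨m y + 1, hx⟩, hy⟩

/-- A locally finite set in a T1 space is closed and discrete. -/
theorem closed_discrete_of_locallyFinite {X : Type*} [TopologicalSpace X] [T1Space X]
    (D : Set X) (hD : ∀ y, ∃ V ∈ 𝓝 y, (V ∩ D).Finite) :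
    IsClosed D ∧ DiscreteTopology D := by
  have key : ∀ y, ∃ V ∈ 𝓝 y, V ∩ D ⊆ {y} := by
    intro y
    obtain ⟨V, hV, hfin⟩ := hD y
    have hfin' : ((V ∩ D) \ {y}).Finite := hfin.subset sdiff_subset
    refine ⟨V ∩ ((V ∩ D) \ {y})ᶜ, Filter.inter_mem hV ?_, ?_⟩
    · exact hfin'.isClosed.isOpen_compl.mem_nhds (fun h => h.2 rfl)
    · rintro z ⟨⟨hzV, hz⟩, hzD⟩
      by_contra hne
      exact hz ⟨⟨hzV, hzD⟩, hne⟩
  constructor
  · rw [← isOpen_compl_iff, isOpen_iff_mem_nhds]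
    intro y hy
    obtain ⟨V, hV, hsub⟩ := key y
    filter_upwards [hV] with z hz hzD
    have : z = y := hsub ⟨hz, hzD⟩
    exact hy (this ▸ hzD)
  · rw [discreteTopology_subtype_iff']
    intro y hy
    obtain ⟨V, hV, hsub⟩ := key y
    obtain ⟨U, hUV, hU, hyU⟩ := mem_nhds_iff.1 hV
    refine ⟨U, hU, ?_⟩
    apply Subset.antisymm
    · rintro z ⟨hz, hzD⟩
      exact hsub ⟨hUV hz, hzD⟩
    · rintro z rfl
      exact ⟨hyU, hy⟩


/-- The main lemma: a continuous rectification with a compact set of countable character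
(containing the neutral element) gives the D-property. -/
theorem dspace_of_rectification {X : Type*} [TopologicalSpace X] [T1Space X]
    (e : X) (q p : X × X → X) (hq : Continuous q) (hp : Continuous p)
    (hpq : ∀ x y, p (x, q (x, y)) = y) (hqe : ∀ x, q (x, x) = e)
    (U : ℕ → Set X) (hU : ∀ n, IsOpen (U n)) (heU : ∀ n, e ∈ U n)
    (hUc : ∀ n, closure (U (n + 1)) ⊆ U n)
    (hF : IsCompact (⋂ n, U n))
    (hbase : ∀ W, IsOpen W → (⋂ n, U n) ⊆ W → ∃ n, U n ⊆ W)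
    (N : X → Set X) (hN : ∀ x, N x ∈ 𝓝 x) :
    ∃ D : Set X, IsClosed D ∧ DiscreteTopology D ∧ (⋃ x ∈ D, N x) = Set.univ := by
  classical
  have hanti : Antitone U := antitone_nat_of_succ_le fun n => subset_closure.trans (hUc n)
  set F : Set X := ⋂ n, U n with hFdef
  have hFcl : F = ⋂ n, closure (U n) := by
    apply Subset.antisymm
    · exact iInter_mono fun n => subset_closure
    · intro x hx
      refine mem_iInter.2 fun n => hUc n (mem_iInter.1 hx (n + 1))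
  have hFclosed : IsClosed F := by
    rw [hFcl]; exact isClosed_iInter fun n => isClosed_closure
  let h : ℕ → X → X → Prop := fun n x y => q (x, y) ∈ U n ∧ q (y, x) ∈ U n
  have hmono : ∀ {i j x y}, i ≤ j → h j x y → h i x y := fun hij hh =>
    ⟨hanti hij hh.1, hanti hij hh.2⟩
  have hrefl : ∀ n x, h n x x := fun n x => by
    simp only [h, hqe]; exact ⟨heU n, heU n⟩
  have hsymm : ∀ n x y, h n x y → h n y x := fun n x y hh => ⟨hh.2, hh.1⟩
  have hopen : ∀ n x, IsOpen {y | h n x y} := fun n x =>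
    ((hU n).preimage (hq.comp (by fun_prop : Continuous fun y : X => (x, y)))).inter
      ((hU n).preimage (hq.comp (by fun_prop : Continuous fun y : X => (y, x))))
  have hnhds : ∀ n x, {y | h n x y} ∈ 𝓝 x := fun n x => (hopen n x).mem_nhds (hrefl n x)
  -- the double tube lemma
  let Ψ : X → X × X → X × X := fun x uv => (p (x, uv.1), p (p (x, uv.1), uv.2))
  have hΨ : ∀ x, Continuous (Ψ x) := by
    intro x
    have h1 : Continuous fun uv : X × X => p (x, uv.1) :=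
      hp.comp (by fun_prop : Continuous fun uv : X × X => (x, uv.1))
    exact h1.prodMk (hp.comp (h1.prodMk continuous_snd))
  have tube2 : ∀ x, ∀ G : Set (X × X), IsOpen G → (∀ u ∈ F, ∀ v ∈ F, Ψ x (u, v) ∈ G) →
      ∃ n, ∀ b a, q (x, b) ∈ U n → q (b, a) ∈ U n → (b, a) ∈ G := by
    intro x G hG hFG
    obtain ⟨V₁, V₂, hV₁, hV₂, hFV₁, hFV₂, hsub⟩ := generalized_tube_lemma hF hF
      (hG.preimage (hΨ x)) (by rintro ⟨u, v⟩ ⟨hu, hv⟩; exact hFG u hu v hv)
    obtain ⟨n₁, hn₁⟩ := hbase V₁ hV₁ hFV₁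
    obtain ⟨n₂, hn₂⟩ := hbase V₂ hV₂ hFV₂
    refine ⟨max n₁ n₂, fun b a hb ha => ?_⟩
    have h1 : (q (x, b), q (b, a)) ∈ V₁ ×ˢ V₂ :=
      ⟨hn₁ (hanti (le_max_left _ _) hb), hn₂ (hanti (le_max_right _ _) ha)⟩
    have h2 := hsub h1
    simpa [Ψ, hpq] using h2
  -- the triple tube lemma
  let Θ : X → X × (X × X) → X := fun y t => p (p (p (y, t.1), t.2.1), t.2.2)
  have hΘ : ∀ y, Continuous (Θ y) := by
    intro y
    have h1 : Continuous fun t : X × (X × X) => p (y, t.1) :=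
      hp.comp (by fun_prop : Continuous fun t : X × (X × X) => (y, t.1))
    have h2 : Continuous fun t : X × (X × X) => p (p (y, t.1), t.2.1) :=
      hp.comp (h1.prodMk (by fun_prop))
    exact hp.comp (h2.prodMk (by fun_prop))
  have tube3 : ∀ y, ∀ W : Set X, IsOpen W → (∀ t ∈ F ×ˢ (F ×ˢ F), Θ y t ∈ W) →
      ∃ n, ∀ a b c, q (y, a) ∈ U n → q (a, b) ∈ U n → q (b, c) ∈ U n → c ∈ W := by
    intro y W hW hFW
    obtain ⟨V₁, V₂, hV₁, hV₂, hFV₁, hFV₂, hsub⟩ := generalized_tube_lemma hF (hF.prod hF)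
      (hW.preimage (hΘ y)) hFW
    obtain ⟨V₃, V₄, hV₃, hV₄, hFV₃, hFV₄, hsub'⟩ := generalized_tube_lemma hF hF hV₂ hFV₂
    obtain ⟨n₁, hn₁⟩ := hbase V₁ hV₁ hFV₁
    obtain ⟨n₃, hn₃⟩ := hbase V₃ hV₃ hFV₃
    obtain ⟨n₄, hn₄⟩ := hbase V₄ hV₄ hFV₄
    refine ⟨max n₁ (max n₃ n₄), fun a b c ha hb hc => ?_⟩
    have h1 : (q (y, a), (q (a, b), q (b, c))) ∈ V₁ ×ˢ V₂ :=
      ⟨hn₁ (hanti (le_max_left _ _) ha),
        hsub' ⟨hn₃ (hanti ((le_max_left _ _).trans (le_max_right _ _)) hb),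
          hn₄ (hanti ((le_max_right _ _).trans (le_max_right _ _)) hc)⟩⟩
    have h2 := hsub h1
    simpa [Θ, hpq] using h2
  -- the compact kernels
  let S : X → X → Prop := fun x y => q (x, y) ∈ F ∧ q (y, x) ∈ F
  have hSh : ∀ {x y}, S x y → ∀ n, h n x y := fun hs n =>
    ⟨mem_iInter.1 hs.1 n, mem_iInter.1 hs.2 n⟩
  let K2 : X → Set X := fun x => {a | ∃ b, S x b ∧ S b a}
  have hPc : ∀ x, IsCompact (Ψ x '' (F ×ˢ F)) := fun x => (hF.prod hF).image (hΨ x)
  have hK2 : ∀ x, IsCompact (K2 x) := by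
    intro x
    have hcl : IsClosed {ba : X × X | S x ba.1 ∧ S ba.1 ba.2} := by
      have c1 : Continuous fun ba : X × X => q (x, ba.1) := hq.comp (by fun_prop)
      have c2 : Continuous fun ba : X × X => q (ba.1, x) := hq.comp (by fun_prop)
      have c3 : Continuous fun ba : X × X => q (ba.1, ba.2) := hq.comp (by fun_prop)
      have c4 : Continuous fun ba : X × X => q (ba.2, ba.1) := hq.comp (by fun_prop)
      exact ((hFclosed.preimage c1).inter (hFclosed.preimage c2)).inter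
        ((hFclosed.preimage c3).inter (hFclosed.preimage c4))
    have himg : K2 x = Prod.snd '' ((Ψ x '' (F ×ˢ F)) ∩ {ba : X × X | S x ba.1 ∧ S ba.1 ba.2}) := by
      ext a
      constructor
      · rintro ⟨b, hxb, hba⟩
        refine ⟨(b, a), ⟨⟨(q (x, b), q (b, a)), ⟨hxb.1, hba.1⟩, ?_⟩, hxb, hba⟩, rfl⟩
        simp [Ψ, hpq]
      · rintro ⟨⟨b, a'⟩, ⟨_, hxb, hba⟩, rfl⟩
        exact ⟨b, hxb, hba⟩
    rw [himg]
    exact ((hPc x).inter_right hcl).image continuous_snd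
  have hbase2 : ∀ x, ∀ W : Set X, IsOpen W → K2 x ⊆ W →
      ∃ m, ∀ y z, h m x y → h m y z → z ∈ W := by
    intro x W hW hKW
    let T : ℕ → Set (X × X) := fun m => {ba | (q (x, ba.1) ∈ closure (U m) ∧
      q (ba.1, x) ∈ closure (U m)) ∧ (q (ba.1, ba.2) ∈ closure (U m) ∧
      q (ba.2, ba.1) ∈ closure (U m)) ∧ ba.2 ∈ Wᶜ}
    have hTcl : ∀ m, IsClosed (T m) := by
      intro m
      have c1 : Continuous fun ba : X × X => q (x, ba.1) := hq.comp (by fun_prop)
      have c2 : Continuous fun ba : X × X => q (ba.1, x) := hq.comp (by fun_prop)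
      have c3 : Continuous fun ba : X × X => q (ba.1, ba.2) := hq.comp (by fun_prop)
      have c4 : Continuous fun ba : X × X => q (ba.2, ba.1) := hq.comp (by fun_prop)
      exact ((isClosed_closure.preimage c1).inter (isClosed_closure.preimage c2)).inter
        (((isClosed_closure.preimage c3).inter (isClosed_closure.preimage c4)).inter
          (hW.isClosed_compl.preimage continuous_snd))
    have hTanti : ∀ {i j}, i ≤ j → T j ⊆ T i := by
      rintro i j hij ⟨b, a⟩ ⟨⟨h1, h2⟩, ⟨h3, h4⟩, h5⟩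
      exact ⟨⟨closure_mono (hanti hij) h1, closure_mono (hanti hij) h2⟩,
        ⟨closure_mono (hanti hij) h3, closure_mono (hanti hij) h4⟩, h5⟩
    obtain ⟨m₀, hm₀⟩ : ∃ m, Ψ x '' (F ×ˢ F) ⊆ (T m)ᶜ := by
      apply (hPc x).elim_directed_cover (fun m => (T m)ᶜ) (fun m => (hTcl m).isOpen_compl)
      · rintro ⟨b, a⟩ _
        by_contra hcon
        simp only [mem_iUnion, mem_compl_iff, not_exists, not_not] at hcon
        have e1 : q (x, b) ∈ F := by rw [hFcl]; exact mem_iInter.2 fun n => (hcon n).1.1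
        have e2 : q (b, x) ∈ F := by rw [hFcl]; exact mem_iInter.2 fun n => (hcon n).1.2
        have e3 : q (b, a) ∈ F := by rw [hFcl]; exact mem_iInter.2 fun n => (hcon n).2.1.1
        have e4 : q (a, b) ∈ F := by rw [hFcl]; exact mem_iInter.2 fun n => (hcon n).2.1.2
        exact (hcon 0).2.2 (hKW ⟨b, ⟨e1, e2⟩, ⟨e3, e4⟩⟩)
      · exact directed_of_isDirected_le fun i j hij => compl_subset_compl.2 (hTanti hij)
    obtain ⟨n, hn⟩ := tube2 x (T m₀)ᶜ (hTcl m₀).isOpen_compl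
      (fun u hu v hv => hm₀ ⟨(u, v), ⟨hu, hv⟩, rfl⟩)
    refine ⟨max m₀ n, fun y z hxy hyz => ?_⟩
    have hnot := hn y z (hanti (le_max_right _ _) hxy.1) (hanti (le_max_right _ _) hyz.1)
    by_contra hzW
    have hxy' := hmono (le_max_left m₀ n) hxy
    have hyz' := hmono (le_max_left m₀ n) hyz
    exact hnot ⟨⟨subset_closure hxy'.1, subset_closure hxy'.2⟩,
      ⟨subset_closure hyz'.1, subset_closure hyz'.2⟩, hzW⟩
  -- finite subsets of the kernels
  have hA : ∀ x, ∃ t : Finset X, (∀ a ∈ t, a ∈ K2 x) ∧ K2 x ⊆ ⋃ a ∈ t, interior (N a) := by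
    intro x
    exact (hK2 x).elim_nhds_subcover (fun a => interior (N a))
      (fun a _ => interior_mem_nhds.2 (hN a))
  choose A hAK hAcov using hA
  let O : X → Set X := fun x => ⋃ a ∈ A x, interior (N a)
  have hO : ∀ x, IsOpen (O x) := fun x => isOpen_biUnion fun a _ => isOpen_interior
  choose m hm using fun x => hbase2 x (O x) (hO x) (hAcov x)
  obtain ⟨E, hEfin, hEcov⟩ := exists_locallyFinite_kernel h hmono hrefl hsymm hnhds O hO m hm
  have hDfin : ∀ y, ∃ V ∈ 𝓝 y, (V ∩ ⋃ x ∈ E, (A x : Set X)).Finite := by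
    intro y
    choose V hV hVfin using hEfin
    have hC3 : IsCompact (Θ y '' (F ×ˢ (F ×ˢ F))) := (hF.prod (hF.prod hF)).image (hΘ y)
    obtain ⟨t, _, ht⟩ := hC3.elim_nhds_subcover (fun c => interior (V c))
      (fun c _ => interior_mem_nhds.2 (hV c))
    obtain ⟨n, hn⟩ := tube3 y (⋃ c ∈ t, interior (V c)) (isOpen_biUnion fun c _ => isOpen_interior)
      (fun s hs => ht ⟨s, hs, rfl⟩)
    refine ⟨{a | h n y a}, hnhds n y, ?_⟩
    have hWfin : ((⋃ c ∈ t, interior (V c)) ∩ E).Finite := by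
      have : ((⋃ c ∈ t, interior (V c)) ∩ E) ⊆ ⋃ c ∈ t, (V c ∩ E) := by
        rintro z ⟨hz, hzE⟩
        obtain ⟨c, hc, hz⟩ := mem_iUnion₂.1 hz
        exact mem_iUnion₂.2 ⟨c, hc, interior_subset hz, hzE⟩
      exact (t.finite_toSet.biUnion fun c _ => hVfin c).subset this
    have hsub : ({a | h n y a} ∩ ⋃ x ∈ E, (A x : Set X)) ⊆
        ⋃ x ∈ ((⋃ c ∈ t, interior (V c)) ∩ E), (A x : Set X) := by
      rintro a ⟨hya, ha⟩
      obtain ⟨x, hxE, hax⟩ := mem_iUnion₂.1 ha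
      refine mem_iUnion₂.2 ⟨x, ⟨?_, hxE⟩, hax⟩
      obtain ⟨b, hxb, hba⟩ := hAK x a hax
      exact hn a b x hya.1 (hSh hba n).2 (hSh hxb n).2
    exact (hWfin.biUnion fun x _ => (A x).finite_toSet).subset hsub
  obtain ⟨hDc, hDd⟩ := closed_discrete_of_locallyFinite _ hDfin
  refine ⟨_, hDc, hDd, ?_⟩
  apply eq_univ_of_forall
  intro y
  obtain ⟨x, hxE, hy⟩ := hEcov y
  obtain ⟨a, ha, hya⟩ := mem_iUnion₂.1 hy
  exact mem_iUnion₂.2 ⟨a, mem_iUnion₂.2 ⟨x, hxE, ha⟩, interior_subset hya⟩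

end Pool.Agent.Work.MP_7aa44c_gt
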